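import Pool.Agent.H1.LP.Stmt

/-!
# Quantum relaxations of k-SAT, the memory and the energies chosen after the formula: the statement
(MP_0f8dca_lc, helper55)
-/

set_option autoImplicit false

namespace Pool.Agent.H55.QP

open Pool.Agent.H1.LP (Clause viol)
open Filter Topology
open scoped ComplexOrder

/-- A pool of quantum memories and of energies, for a set `cell` of assignments of `n` Boolean
variables.  It consists of pieces of memories: the piece `i` is a Hilbert space of dimension
`ord i` and assigns to every assignment `x` a positive semidefinite matrix `st x i` of trace at most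
one (a state with a weight); and of energy functions: `en t x` is an energy which the clause `cl t`
has at the assignment `x`: any real number in `[-1, 1]`, not positive if `x` satisfies `cl t` (for
instance `1` if `x` violates the clause and `0` if not).  A clause may have any number of energy
functions.  A memory of `b` qubits is one piece of dimension `2 ^ b`, all of whose matrices have
trace one; a memory of `a` bits and `b` qubits consists of `2 ^ a` pieces of dimension `2 ^ b`. -/
structure QPool (n : ℕ) where
  /-- the assignments which are encoded -/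
  cell : Finset (Fin n → Bool)
  /-- the number of pieces -/
  nb : ℕ
  /-- the dimensions of the pieces -/
  ord : Fin nb → ℕ
  /-- the state of an assignment on a piece, times its weight -/
  st : (Fin n → Bool) → (i : Fin nb) → Matrix (Fin (ord i)) (Fin (ord i)) ℂ
  /-- the number of energy functions -/
  nc : ℕ
  /-- the clause of an energy function -/
  cl : Fin nc → Clause n
  /-- the energy functions -/
  en : Fin nc → (Fin n → Bool) → ℝ
  psd : ∀ x ∈ cell, ∀ i, (st x i).PosSemidef
  sub : ∀ x ∈ cell, ∀ i, (st x i).trace.re ≤ 1
  bdd : ∀ x ∈ cell, ∀ t, |en t x| ≤ 1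
  sound : ∀ x ∈ cell, ∀ t, (cl t).Sat x → en t x ≤ 0

/-- The size of a set of pieces and of energy functions: the dimension of the Hilbert space (the
direct sum of the pieces; `2 ^ (a + b)` for `a` bits and `b` qubits), plus the number of energy
functions, plus one. -/
noncomputable def QPool.sizeOf {n : ℕ} (P : QPool n) (I : Finset (Fin P.nb)) (T : Finset (Fin P.nc)) :
    ℝ :=
  ∑ i ∈ I, (P.ord i : ℝ) + T.card + 1

/-- The pieces in `I` and the energy functions in `T` give a certificate with margin `de`, up to the
error `er`: together the pieces in `I` are a memory (the total trace is one for all encoded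
assignments), and there are nonnegative weights of the energy functions, of sum at most one, and an
observable `H` on the memory (a Hermitian matrix on every piece in `I`), all of whose eigenvalues
are at least `de`, whose expectation in the state of each encoded assignment is, up to the error
`er`, the weighted sum of the energies. -/
def QPool.Certifies {n : ℕ} (P : QPool n) (I : Finset (Fin P.nb)) (T : Finset (Fin P.nc))
    (de er : ℝ) : Prop :=
  (∀ x ∈ P.cell, ∑ i ∈ I, (P.st x i).trace = 1) ∧
  ∃ (w : Fin P.nc → ℝ) (H : (i : Fin P.nb) → Matrix (Fin (P.ord i)) (Fin (P.ord i)) ℂ),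
    (∀ t ∈ T, 0 ≤ w t) ∧ ∑ t ∈ T, w t ≤ 1 ∧
    (∀ x ∈ P.cell,
      ‖∑ i ∈ I, (H i * P.st x i).trace - ((∑ t ∈ T, w t * P.en t x : ℝ) : ℂ)‖ ≤ er) ∧
    ∀ i ∈ I, (H i - (de : ℂ) • (1 : Matrix (Fin (P.ord i)) (Fin (P.ord i)) ℂ)).PosSemidef

/-- Memories and energy functions from the pools `P`, of total size at most `S`, certify the formula
`phi` with margin `de`, up to the error `er`: one chooses pools whose cells are disjoint and cover
the cube, and in each of them a set of pieces and a set of energy functions of clauses of `phi`,
which give a certificate.  All choices may depend on `phi`. -/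
def CertifiedBy {n M m : ℕ} (P : Fin M → QPool n) (phi : Fin m → Clause n) (de er S : ℝ) : Prop :=
  ∃ (J : Finset (Fin M)) (I : (j : Fin M) → Finset (Fin (P j).nb))
    (T : (j : Fin M) → Finset (Fin (P j).nc)),
    (∀ j ∈ J, ∀ j' ∈ J, j ≠ j' → Disjoint (P j).cell (P j').cell) ∧
    (∀ x, ∃ j ∈ J, x ∈ (P j).cell) ∧
    (∀ j ∈ J, (∀ t ∈ T j, ∃ i, phi i = (P j).cl t) ∧ (P j).Certifies (I j) (T j) de er) ∧
    ∑ j ∈ J, (P j).sizeOf (I j) (T j) ≤ S

open Classical in
/-- Quantum relaxations of size `2 ^ (c n)`, whose memories and energies are chosen after the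
formula from pools of total size `2 ^ (C n)`, do not refute `k`-CNFs with `O(n)` clauses and with
the gap `(1 - ε) / 2 ^ k`.  There are `K` and `γ > 0` such that for all large `n` there is a finite
list of CNFs with `n` variables, at most `K n` clauses, all of width exactly `k`, every assignment
violating at least `(1 - ε) m / 2 ^ k` of the `m` clauses, with the property: for all pools, of
total size at most `2 ^ (C n)`, at most a fraction `2 ^ (- γ n)` of the formulas of the list is
certified with margin `2 ^ (- γ n)`, up to the error `2 ^ (- n)`, by memories and energy functions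
from the pools of total size at most `2 ^ (c n)`. -/
def HardP (k : ℕ) (ε c C : ℝ) : Prop :=
  ∃ (K : ℕ) (γ : ℝ), 0 < γ ∧ ∃ n₀ : ℕ, ∀ n : ℕ, n₀ ≤ n →
    ∃ (Y : ℕ) (m : Fin Y → ℕ) (phi : (a : Fin Y) → Fin (m a) → Clause n), 0 < Y ∧
      (∀ a, 1 ≤ m a ∧ m a ≤ K * n ∧
        (∀ i, (phi a i).card = k ∧ ((phi a i).image Prod.fst).card = k) ∧
        ∀ x, (1 - ε) * ((m a : ℝ) / 2 ^ k) ≤ (viol (phi a) x : ℝ)) ∧
      ∀ (M : ℕ) (P : Fin M → QPool n),
        ∑ j, (P j).sizeOf Finset.univ Finset.univ ≤ (2 : ℝ) ^ (C * n) →
        ((Finset.univ.filter (fun a => CertifiedBy P (phi a) ((2 : ℝ) ^ (-(γ * n)))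
          ((2 : ℝ) ^ (-(n : ℝ))) ((2 : ℝ) ^ (c * n)))).card : ℝ) ≤ (2 : ℝ) ^ (-(γ * n)) * Y

/-- Quantum relaxations of k-SAT: for every gap `ε > 0` there are exponents `c k`, positive for
all `k ≥ 3` and tending to `1`, and `C k ≥ c k`, tending to infinity, such that memories of total
dimension `2 ^ (c k n)` (`a` bits and `b` qubits with `a + b ≤ c k n`) and energy functions, all
chosen after the formula from pools of total size `2 ^ (C k n)`, do not refute `k`-CNFs with `n`
variables and `O(n)` clauses, in which every assignment violates a fraction at least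
`(1 - ε) / 2 ^ k` of the clauses. -/
def StatementP : Prop :=
  ∀ ε : ℝ, 0 < ε → ∃ c C : ℕ → ℝ, (∀ k, 3 ≤ k → 0 < c k ∧ c k ≤ C k) ∧ Tendsto c atTop (𝓝 1) ∧
    Tendsto C atTop atTop ∧ ∀ k, 3 ≤ k → HardP k ε (c k) (C k)

end Pool.Agent.H55.QP
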