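import Pool.Agent.H91.QO.TargetsA
import Pool.Agent.H43.QO.TargetsB
import Pool.Agent.H55.QO.Targets
import Pool.Agent.H55.QP.Stmt

/-!
# Quantum relaxations of k-SAT, memory and energies chosen after the formula: targets
(MP_0f8dca_lc, helper55)
-/

set_option autoImplicit false

namespace Pool.Agent.H55.QP

open Matrix Finset
open Pool.Agent.H1.LP (Clause viol)
open Pool.Agent.H91.QO (NO)
open Pool.Agent.H91.SV (kc)
open Pool.Agent.H43.QO (Good2)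

/-- COREP: the core inequality for wide clauses; `(K + 1) * (L + 1)` bits per block -/
def S_COREP : Prop :=
  ∀ (E K k p N R L n h : ℕ) [Fact p.Prime] (th e0 : ℝ), 2 ≤ E → 1 ≤ R → p ≤ 2 ^ (K + 1) →
    Good2 p N R k h (1 - 1 / (E : ℝ)) th → 0 ≤ th → th ≤ 1 → N * ((K + 1) * (L + 1)) ≤ n →
    0 < e0 → e0 < 1 / 3 → (p : ℝ) ≤ e0 * ((p ^ L : ℕ) : ℝ) →
    ∃ (Y : ℕ) (m : Fin Y → ℕ) (phi : (a : Fin Y) → Fin (m a) → Clause n), 0 < Y ∧
      (∀ a, 1 ≤ m a ∧ m a ≤ NO R K L k ∧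
        (∀ i, (phi a i).card = (K + 1) * (L + 1) * k ∧
          ((phi a i).image Prod.fst).card = (K + 1) * (L + 1) * k) ∧
        ∀ x, (1 - 1 / (E : ℝ)) * ((m a : ℝ) / 2 ^ ((K + 1) * (L + 1) * k)) ≤
          (viol (phi a) x : ℝ)) ∧
      ∀ (M : ℕ) (P : Fin M → QPool n) (A : Finset (Fin Y)) (de er S W θ : ℝ), 0 < de →
        4 * (p : ℝ) ^ N * er ≤ de → th ≤ de / 4 → 0 < W → 0 < θ →
        (∀ a ∈ A, CertifiedBy P (phi a) de er S) →
        ∑ j, (P j).sizeOf Finset.univ Finset.univ ≤ W → θ * Y * (2 * W) ≤ A.card → 0 < A.card →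
        de ^ 2 ≤ 2 ^ 14 * ((p : ℝ) ^ N) ^ 2 * ((R : ℝ) * kc p (p ^ L) N h e0 (2 * W) θ) *
          (2 * S + 1)

/-- the large width case -/
def StatementPW : Prop := ∀ C ε : ℝ, 0 < ε → ∃ k : ℕ, HardP k ε (1 - ε) C

/-- MONO: fixed encodings with fixed energies give a small exponent for pools -/
def S_MONO : Prop := ∀ (k : ℕ) (ε c : ℝ), 0 < c → QO.HardQ k ε c c →
  ∃ c' : ℝ, 0 < c' ∧ HardP k ε c' c'

/-- width 3 -/
def S_FIN3 : Prop := ∀ ε : ℝ, 0 < ε → ∃ c : ℝ, 0 < c ∧ HardP 3 ε c c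

/-- PAD: padding of the clauses -/
def S_PAD : Prop := ∀ (w k : ℕ) (ε c c' C C' : ℝ), w ≤ k → c' < c → C' < C →
  HardP w ε c C → HardP k ε c' C'

/-- LIM: `S_PAD → S_LIM` -/
def S_LIM : Prop := StatementPW → S_FIN3 → StatementP

end Pool.Agent.H55.QP
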