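import Pool.Agent.H91.QO.COREO2
import Pool.Agent.H55.QP.Targets

/-! # Quantum relaxations from pools, wide clauses: assembly of the core inequality (helper55, after
helper91) -/

set_option autoImplicit false

namespace Pool.Agent.H55.QP

open Finset Matrix
open Pool.Agent.H1.LP (Clause viol Agree)
open Pool.Agent.H96.KX (prs)
open Pool.Agent.H91.AV (S_BALH S_MAS)
open Pool.Agent.H91.SV (kc kc_nonneg S_CELB)
open Pool.Agent.H91.QO (NO clv one_c err_mono)
open H43.PS (PosDeg av)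
open Pool.Agent.H43.QO (Good2 S_ABSO2)
open Pool.Agent.H55.QE (rfd rfd_psd rfd_tr)

/-- the real form of a certificate -/
theorem cert_real {n : ℕ} (P : QPool n) (I : Finset (Fin P.nb)) (T : Finset (Fin P.nc))
    (de er : ℝ) (h : P.Certifies I T de er) :
    ∃ (mu : Fin P.nc → ℝ) (L : (i : Fin P.nb) →
      Matrix (Fin (P.ord i + P.ord i)) (Fin (P.ord i + P.ord i)) ℝ),
      (∀ t, 0 ≤ mu t) ∧ (∀ t, t ∉ T → mu t = 0) ∧ ∑ t, mu t ≤ 1 ∧
      (∀ i, (L i).PosSemidef) ∧ (∀ i, i ∉ I → L i = 0) ∧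
      ∀ x ∈ P.cell, |∑ t, mu t * P.en t x - de - ∑ i, (L i * rfd (P.st x i)).trace| ≤ er := by
  classical
  obtain ⟨htr, w, H, hw0, hw1, h1, h2⟩ := h
  have hmu : ∀ f : Fin P.nc → ℝ, ∑ t, (if t ∈ T then w t else 0) * f t = ∑ t ∈ T, w t * f t := by
    intro f
    rw [← Finset.sum_filter_add_sum_filter_not univ (fun t => t ∈ T)]
    have e1 : ∑ t ∈ univ.filter (fun t => ¬ t ∈ T), (if t ∈ T then w t else 0) * f t = 0 := by
      refine Finset.sum_eq_zero fun t ht => ?_
      rw [if_neg (mem_filter.1 ht).2, zero_mul]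
    have e2 : univ.filter (fun t => t ∈ T) = T := by
      ext t
      simp
    rw [e1, add_zero, e2]
    refine Finset.sum_congr rfl fun t ht => ?_
    rw [if_pos ht]
  refine ⟨fun t => if t ∈ T then w t else 0,
    fun i => if i ∈ I then (1 / 2 : ℝ) • rfd (H i - (de : ℂ) • 1) else 0, ?_, ?_, ?_, ?_, ?_, ?_⟩
  · intro t
    dsimp only
    split_ifs with ht
    · exact hw0 t ht
    · exact le_rfl
  · intro t ht
    dsimp only
    rw [if_neg ht]
  · have e1 := hmu (fun _ => 1)
    simp only [mul_one] at e1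
    rw [e1]
    exact hw1
  · intro i
    dsimp only
    split_ifs with hi
    · exact (rfd_psd (h2 i hi)).smul (by norm_num)
    · exact Matrix.PosSemidef.zero
  · intro i hi
    dsimp only
    rw [if_neg hi]
  · intro x hx
    rw [hmu (fun t => P.en t x)]
    have h3 : ∀ i, i ∈ I → ((if i ∈ I then (1 / 2 : ℝ) • rfd (H i - (de : ℂ) •
        (1 : Matrix (Fin (P.ord i)) (Fin (P.ord i)) ℂ)) else 0) *
        rfd (P.st x i)).trace = ((H i * P.st x i).trace - (de : ℂ) * (P.st x i).trace).re := by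
      intro i hi
      rw [if_pos hi, Matrix.smul_mul, trace_smul, rfd_tr, Matrix.sub_mul, trace_sub,
        Matrix.smul_mul, Matrix.one_mul, trace_smul]
      simp
    have h3' : ∑ i, ((if i ∈ I then (1 / 2 : ℝ) • rfd (H i - (de : ℂ) •
        (1 : Matrix (Fin (P.ord i)) (Fin (P.ord i)) ℂ)) else 0) * rfd (P.st x i)).trace =
        ∑ i ∈ I, ((H i * P.st x i).trace - (de : ℂ) * (P.st x i).trace).re := by
      rw [← Finset.sum_filter_add_sum_filter_not univ (fun i => i ∈ I)]
      have e1 : ∑ i ∈ univ.filter (fun i => ¬ i ∈ I), ((if i ∈ I then (1 / 2 : ℝ) •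
          rfd (H i - (de : ℂ) • (1 : Matrix (Fin (P.ord i)) (Fin (P.ord i)) ℂ)) else 0) *
          rfd (P.st x i)).trace = 0 := by
        refine Finset.sum_eq_zero fun i hi => ?_
        rw [if_neg (mem_filter.1 hi).2, Matrix.zero_mul, trace_zero]
      have e2 : univ.filter (fun i => i ∈ I) = I := by
        ext i
        simp
      rw [e1, add_zero, e2]
      exact Finset.sum_congr rfl h3
    have h4 := h1 x hx
    have h5 := (Complex.abs_re_le_norm _).trans h4
    refine le_trans (le_of_eq ?_) h5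
    rw [← abs_neg]
    congr 1
    have h6 := htr x hx
    show -(∑ t ∈ T, w t * P.en t x - de - ∑ i, ((if i ∈ I then (1 / 2 : ℝ) • rfd (H i - (de : ℂ) •
        (1 : Matrix (Fin (P.ord i)) (Fin (P.ord i)) ℂ)) else 0) * rfd (P.st x i)).trace) = _
    rw [h3', ← Complex.re_sum, sum_sub_distrib, ← mul_sum, h6]
    simp only [Complex.sub_re, Complex.ofReal_re, mul_one]
    ring

/-- the size of the real form of a choice -/
theorem size_real {n : ℕ} (P : QPool n) (I : Finset (Fin P.nb)) (T : Finset (Fin P.nc)) :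
    ∑ i ∈ I, (((P.ord i + P.ord i : ℕ) : ℝ)) + T.card + 1 ≤ 2 * P.sizeOf I T := by
  unfold QPool.sizeOf
  have h1 : ∑ i ∈ I, (((P.ord i + P.ord i : ℕ) : ℝ)) = 2 * ∑ i ∈ I, (P.ord i : ℝ) := by
    rw [mul_sum]
    refine sum_congr rfl fun i _ => ?_
    push_cast
    ring
  have h2 : (0 : ℝ) ≤ T.card := Nat.cast_nonneg _
  rw [h1]
  linarith

theorem one_le_sizeOf {n : ℕ} (P : QPool n) (I : Finset (Fin P.nb)) (T : Finset (Fin P.nc)) :
    1 ≤ P.sizeOf I T := by
  unfold QPool.sizeOf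
  have h3 : (0 : ℝ) ≤ ∑ i ∈ I, (P.ord i : ℝ) := Finset.sum_nonneg fun i _ => Nat.cast_nonneg _
  have h4 : (0 : ℝ) ≤ (T.card : ℝ) := Nat.cast_nonneg _
  linarith

theorem pf_COREP (hAB : S_ABSO2) (hFR : Pool.Agent.H76.QE.T_FRQ) (hNP : H96.KX.S_NPR)
    (hEN : Pool.Agent.H1.LP.S_ENC) (hCE : S_CELB) (hBA : S_BALH)
    (hMA : S_MAS) : S_COREP := by
  classical
  intro E K k p N R L n h hp th e0 hE hR hple hG hth0 hth1 hNn he0 he1 hpL
  obtain ⟨T, bad, D, hT, hbad, hz, hD, hPos, havD, hvP⟩ := hG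
  obtain ⟨b, hb⟩ : ∃ b, (K + 1) * (L + 1) = b := ⟨_, rfl⟩
  have hNO : NO R K L k = R * 2 ^ (b * k) := by
    unfold NO
    rw [hb]
  simp only [hb] at hNn ⊢
  obtain ⟨asg, dec, cl, hda, hsat, hcard⟩ := hEN n N b hNn
  have hpn0 : 0 < p := (Fact.out : p.Prime).pos
  have hNZ : NeZero p := ⟨hpn0.ne'⟩
  have hp0 : (0 : ℝ) < p := by exact_mod_cast hpn0
  have hp1 : (1 : ℝ) ≤ p := by exact_mod_cast (Fact.out : p.Prime).one_lt.le
  have hR0 : (0 : ℝ) < R := by exact_mod_cast hR
  have hR1 : (1 : ℝ) ≤ R := by exact_mod_cast hR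
  have hE2 : (2 : ℝ) ≤ E := by exact_mod_cast hE
  have hEi : 1 / (E : ℝ) ≤ 1 / 2 := one_div_le_one_div_of_le (by norm_num) hE2
  have hEi0 : 0 < 1 / (E : ℝ) := by positivity
  -- the embedding of the block values
  obtain ⟨q0, hq0⟩ : ∃ q0 : ℕ, q0 = p ^ L := ⟨_, rfl⟩
  have hcU : Fintype.card (ZMod p × (Fin q0)) = p ^ (L + 1) := by
    rw [Fintype.card_prod, Fintype.card_fin, hq0, ZMod.card, pow_succ, mul_comm]
  obtain ⟨io⟩ : Nonempty ((ZMod p × (Fin q0)) ↪ (Fin b → Bool)) := by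
    apply Function.Embedding.nonempty_of_card_le
    rw [hcU, Fintype.card_fun, Fintype.card_bool, Fintype.card_fin, ← hb, pow_mul]
    exact Nat.pow_le_pow_left hple _
  have hq1 : 1 ≤ q0 := by
    rw [hq0]
    exact Nat.one_le_pow _ _ hpn0
  obtain ⟨al, hal⟩ : ∃ al : (Fin N → (Fin q0) → ZMod p) → Fin N → (Fin b → Bool) → ZMod p,
      al = fun a j q => Function.extend io (Pool.Agent.H91.AV.hs p (Fin q0) (a j))
        (fun _ => 0) q := ⟨_, rfl⟩
  have hal' : ∀ a j u, al a j (io u) = Pool.Agent.H91.AV.hs p (Fin q0) (a j) u := by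
    intro a j u
    rw [hal]
    exact io.injective.extend_apply _ _ _
  have hform := fun a : Fin N → (Fin q0) → ZMod p =>
    hFR p N R b n T bad (al a) dec cl hbad hsat
  choose m phi hm hphi hsum hviol using hform
  have hprs : (prs (b := b) T).card = R * 2 ^ (b * k) := hNP N R b k T hT
  have hvlow : ∀ a y, (1 - 1 / (E : ℝ)) * R ≤ (viol (phi a) y : ℝ) := by
    intro a y
    rw [hviol a y]
    have h1 := hz (H1.LP.val (al a) (dec y))
    convert h1
  have hvm : ∀ a y, viol (phi a) y ≤ m a := by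
    intro a y
    unfold viol
    refine (card_le_univ _).trans ?_
    rw [Fintype.card_fin]
  have hm1 : ∀ a, 1 ≤ m a := by
    intro a
    have h1 := hvlow a (fun _ => false)
    have h2 : (viol (phi a) (fun _ => false) : ℝ) ≤ m a := by exact_mod_cast hvm a _
    have h3 : (0 : ℝ) < m a := by
      have : 0 < (1 - 1 / (E : ℝ)) * R := mul_pos (by linarith) hR0
      linarith
    exact_mod_cast h3
  have hm2 : ∀ a, m a ≤ R * 2 ^ (b * k) := by
    intro a
    rw [← hprs]
    exact hm a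
  obtain ⟨Yc, hYc⟩ : ∃ Yc, Fintype.card (Fin N → (Fin q0) → ZMod p) = Yc := ⟨_, rfl⟩
  have hYc0 : 0 < Yc := by
    rw [← hYc]
    exact Fintype.card_pos
  let e : Fin Yc ≃ (Fin N → (Fin q0) → ZMod p) :=
    (Fintype.equivFinOfCardEq hYc).symm
  refine ⟨Yc, fun a => m (e a), fun a => phi (e a), hYc0, ?_, ?_⟩
  · intro a
    refine ⟨hm1 _, by
        rw [hNO]
        exact hm2 _, ?_, ?_⟩
    · intro c
      obtain ⟨q, -, hq⟩ := hphi (e a) c
      show (phi (e a) c).card = b * k ∧ ((phi (e a) c).image Prod.fst).card = b * k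
      rw [hq]
      have := hcard (T q.1) q.2
      rw [hT q.1] at this
      rw [mul_comm k] at this
      exact this
    · intro y
      have h5 : ((m (e a) : ℝ) / 2 ^ (b * k)) ≤ R := by
        rw [div_le_iff₀ (by positivity)]
        exact_mod_cast hm2 (e a)
      calc (1 - 1 / (E : ℝ)) * ((m (e a) : ℝ) / 2 ^ (b * k))
          ≤ (1 - 1 / (E : ℝ)) * R := mul_le_mul_of_nonneg_left h5 (by linarith)
        _ ≤ _ := hvlow (e a) y
  -- the inequality
  intro M P A de er S W θ hde her hthde hW hθ hA hPW hθA hA0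
  obtain ⟨A', hA'⟩ : ∃ A' : Finset (Fin N → (Fin q0) → ZMod p), A' = A.map e.toEmbedding :=
    ⟨_, rfl⟩
  have hA'c : A'.card = A.card := by
    rw [hA']
    exact card_map _
  have hA'm : ∀ a ∈ A', CertifiedBy P (phi a) de er S := by
    intro a ha
    rw [hA'] at ha
    obtain ⟨i, hi, rfl⟩ := mem_map.1 ha
    exact hA i hi
  choose! J I TT hJ1 hJ2 hJ3 hJ4 using hA'm
  -- at least one pool
  have hW1 : 1 ≤ W := by
    have h1 : 0 < A'.card := by
      rw [hA'c]
      exact hA0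
    obtain ⟨a, ha⟩ := Finset.card_pos.1 h1
    obtain ⟨j, hj, -⟩ := hJ2 a ha (fun _ => false)
    refine le_trans ?_ hPW
    have h2 : ∀ j, (1 : ℝ) ≤ (P j).sizeOf Finset.univ Finset.univ := fun j =>
      one_le_sizeOf _ _ _
    calc (1 : ℝ) ≤ (P j).sizeOf Finset.univ Finset.univ := h2 j
      _ ≤ ∑ j, (P j).sizeOf Finset.univ Finset.univ :=
        Finset.single_le_sum (f := fun j => (P j).sizeOf Finset.univ Finset.univ)
          (fun j _ => (by norm_num : (0 : ℝ) ≤ 1).trans (h2 j)) (mem_univ j)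
  have hMx1 : (1 : ℝ) ≤ (p : ℝ) ^ N := one_le_pow₀ hp1
  have her' : er ≤ de / (4 * (p : ℝ) ^ N) := by
    rw [le_div_iff₀ (by positivity)]
    linarith
  have hlp : ∀ (a : Fin N → (Fin q0) → ZMod p) (j : Fin M),
      ∃ (mu : Fin (P j).nc → ℝ)
        (Lm : (i : Fin (P j).nb) → Matrix (Fin ((P j).ord i + (P j).ord i))
          (Fin ((P j).ord i + (P j).ord i)) ℝ),
      (∀ t, 0 ≤ mu t) ∧ (∀ t, t ∉ TT a j → mu t = 0) ∧ ∑ t, mu t ≤ 1 ∧
      (∀ i, (Lm i).PosSemidef) ∧ (∀ i, i ∉ I a j → Lm i = 0) ∧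
      (a ∈ A' → j ∈ J a → ∀ x ∈ (P j).cell,
        |∑ t, mu t * (P j).en t x - de -
          (0 + ∑ i, (Lm i * rfd ((P j).st x i)).trace)| ≤
          de / (4 * (p : ℝ) ^ N)) := by
    intro a j
    by_cases h : a ∈ A' ∧ j ∈ J a
    · obtain ⟨mu, Lm, h1, h2, h3, h4, h5, h6⟩ := cert_real (P j) (I a j) (TT a j) de er
        (hJ3 a h.1 j h.2).2
      refine ⟨mu, Lm, h1, h2, h3, h4, h5, fun _ _ x hx => ?_⟩
      rw [zero_add]
      exact (h6 x hx).trans her'
    · refine ⟨fun _ => 0, fun _ => 0, fun _ => le_rfl, fun _ _ => rfl, by simp,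
        fun _ => Matrix.PosSemidef.zero, fun _ _ => rfl, ?_⟩
      intro ha hj x hx
      exact absurd ⟨ha, hj⟩ h
  choose mu Lm hm0 hmT hms hLp hLI hlm using hlp
  have hcYt : ((Fintype.card (Fin N → (Fin q0) → ZMod p) : ℕ) : ℝ) = Yc := by rw [hYc]
  have hYR : (0 : ℝ) < Yc := by exact_mod_cast hYc0
  -- the kernel
  obtain ⟨pt, hpt⟩ : ∃ pt : (Fin N → ZMod p × Fin q0) → (Fin n → Bool),
      pt = fun x => asg (fun j => io (x j)) := ⟨_, rfl⟩
  have hptd : ∀ x, dec (pt x) = fun j => io (x j) := by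
    intro x
    rw [hpt]
    exact hda _
  have hW2 : 0 < 2 * W := by positivity
  obtain ⟨kb, hkb⟩ : ∃ kb : ℝ, kb = kc p q0 N h e0 (2 * W) θ := ⟨_, rfl⟩
  have hkb0 : 0 ≤ kb := by
    rw [hkb]
    exact kc_nonneg _ _ _ _ _ _ _ he0 hW2 hθ
  have hpq : (p : ℝ) ≤ e0 * q0 := by
    rw [hq0]
    exact hpL
  have hBal : Pool.Agent.H91.AV.Bal (Pool.Agent.H91.AV.hs p (Fin q0)) := hBA p (Fin q0)
  have hmass : ∀ a : Fin N → (Fin q0) → ZMod p,
      ∑ x : Fin N → ZMod p × Fin q0,
        D (fun i => Pool.Agent.H91.AV.hs p (Fin q0) (a i) (x i)) =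
        Fintype.card (Fin N → ZMod p × Fin q0) := by
    intro a
    have h1 := hMA ((Fin q0) → ZMod p) (ZMod p × (Fin q0)) (ZMod p)
      (Pool.Agent.H91.AV.hs p (Fin q0)) hBal N D a
    have h0 : ∑ z, D z = (p : ℝ) ^ N := by
      have h4 : ((Fintype.card (Fin N → ZMod p) : ℕ) : ℝ) = (p : ℝ) ^ N := by
        rw [Fintype.card_fun, ZMod.card, Fintype.card_fin]
        push_cast
        rfl
      unfold av at havD
      rw [h4] at havD
      have h5 : (p : ℝ) ^ N ≠ 0 := by positivity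
      field_simp at havD
      exact havD
    rw [h0, ZMod.card] at h1
    have h2 : (p : ℝ) ^ N ≠ 0 := by positivity
    have h3 := mul_right_cancel₀ h2 h1
    rw [h3, Fintype.card_fun (α := Fin N), Fintype.card_fin]
    push_cast
    rfl
  -- the index of a clause in a formula
  have hidx : ∀ (c : Clause n) (a : Fin N → (Fin q0) → ZMod p), ∃ i : Fin R,
      c ∈ univ.image (phi a) → ∀ x : Fin N → ZMod p × Fin q0, ¬ c.Sat (pt x) →
        bad i (fun i => Pool.Agent.H91.AV.hs p (Fin q0) (a i) (x i)) := by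
    intro c a
    by_cases hc : c ∈ univ.image (phi a)
    · obtain ⟨s, -, hs⟩ := mem_image.1 hc
      have h1 := hsum a (fun c' => if c' = c then (1 : ℝ) else 0)
      have h2 : 0 < ∑ c', (fun c' => if c' = c then (1 : ℝ) else 0) (phi a c') := by
        refine Finset.sum_pos' (fun c' _ => ?_) ⟨s, mem_univ _, ?_⟩
        · dsimp only
          split_ifs <;> norm_num
        · dsimp only
          rw [if_pos hs]
          norm_num
      rw [h1] at h2
      obtain ⟨q, hq, hq2⟩ := Finset.exists_ne_zero_of_sum_ne_zero h2.ne'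
      have hq3 : cl (T q.1) q.2 = c := by
        by_contra h3
        apply hq2
        rw [if_neg h3]
      refine ⟨q.1, fun _ x hx => ?_⟩
      have h4 : Agree (T q.1) (dec (pt x)) q.2 := by
        rw [← hq3, hsat, not_not] at hx
        exact hx
      rw [hptd] at h4
      refine (hbad q.1 (H1.LP.val (al a) q.2) _ ?_).1 (mem_filter.1 hq).2
      intro j hj
      show al a j (q.2 j) = _
      rw [← h4 j hj, hal']
    · exact ⟨⟨0, hR⟩, fun h => absurd h hc⟩
  choose idx hidx using hidx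
  have hne : Nonempty (Fin N → ZMod p × Fin q0) := ⟨fun _ => (0, ⟨0, hq1⟩)⟩
  have key := hAB (Fin N → ZMod p × Fin q0) (Fin N → (Fin q0) → ZMod p) (Clause n)
    (fun a x => D (fun i => Pool.Agent.H91.AV.hs p (Fin q0) (a i) (x i))) (R * kb)
    ((p : ℝ) ^ N) (θ * Yc) (2 * W) th (fun a => univ.image (phi a)) (fun c x => c.Sat (pt x))
    (by positivity) hMx1 (by positivity) hth0 (fun a x => hD _) hmass
    (by
      intro q f g hqW hf hg A1 X1 m1 hm1 htr
      have h1 := hCE p q0 N h e0 (2 * W) θ hq1 he0 he1 hpq hW2 hθ D ((p : ℝ) ^ N) hD hPos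
        q f g hqW hf hg A1 X1 m1 hm1 htr
      rw [hcYt, ← hkb] at h1
      refine le_trans (neg_le_neg ?_) h1
      refine err_mono (by positivity) ?_ ?_
      · exact Finset.sum_nonneg fun a _ => Finset.sum_nonneg fun x _ =>
          H49.SDP.trace_mul_nonneg (hf a) (hg x)
      · have h2 : (1 : ℝ) * kb ≤ R * kb := mul_le_mul_of_nonneg_right hR1 hkb0
        rw [one_mul] at h2
        gcongr)
    (by
      intro c f g hf hg hfc hgc A1 X1 m1 hm1 hfg
      refine clv R _ (fun i a x => if bad i (fun i => Pool.Agent.H91.AV.hs p (Fin q0) (a i) (x i))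
        then D (fun i => Pool.Agent.H91.AV.hs p (Fin q0) (a i) (x i)) else 0) ((p : ℝ) ^ N) kb
        (θ * Yc) th (by positivity) hkb0 (by positivity) ?_ (idx c) f g hf hg ?_ A1 X1 m1 hm1 hfg
      · intro i f' g' hf' hg' A2 X2 m2 hm2 hfg2
        have h1 := one_c hCE p q0 N h e0 (2 * W) θ hq1 he0 he1 hpq (by linarith) hθ
          (fun z => if bad i z then D z else 0) ((p : ℝ) ^ N) th hMx1
          (by
            intro z
            split_ifs
            · exact hD z
            · rw [abs_zero]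
              positivity) hth0 hth1 (hvP i) f' g' hf' hg' A2 X2 m2 hm2 hfg2
        rw [hcYt, ← hkb] at h1
        exact h1
      · intro a x hfa hgx
        rw [if_pos (hidx c a (hfc a hfa) x (hgc x hgx))])
    M A' J (fun j => {x | pt x ∈ (P j).cell}) (fun j => (P j).nb) (fun j => (P j).nc)
    (fun j i => (P j).ord i + (P j).ord i) (fun j => (P j).cl) I TT
    (fun j x i => rfd ((P j).st (pt x) i)) Lm (fun _ _ => 0) mu
    (fun j t x => (P j).en t (pt x)) de (2 * S) hde hthde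
    (by
      intro a ha x
      obtain ⟨j, hj, hx⟩ := hJ2 a ha (pt x)
      exact ⟨j, hj, hx⟩)
    (by
      intro a ha j hj j' hj' hne
      rw [Set.disjoint_left]
      intro x hx hx'
      exact (Finset.disjoint_left.1 (hJ1 a ha j hj j' hj' hne)) hx hx')
    (by
      intro j x hx i
      exact rfd_psd ((P j).psd (pt x) hx i))
    hLp hLI (fun _ _ => le_rfl) hm0 hmT (fun a _ j _ => hms a j)
    (by
      intro a ha j hj t ht
      obtain ⟨i, hi⟩ := (hJ3 a ha j hj).1 t ht
      exact mem_image.2 ⟨i, mem_univ _, hi⟩)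
    (by
      intro j t x hx
      exact (P j).bdd (pt x) hx t)
    (by
      intro j t x hx hs
      exact (P j).sound (pt x) hx t hs)
    (by
      intro a ha j hj x hx
      exact hlm a j ha hj (pt x) hx)
    (by
      intro a ha
      have h1 := hJ4 a ha
      have h2 : ∑ j ∈ J a, (∑ i ∈ I a j, (((P j).ord i + (P j).ord i : ℕ) : ℝ) +
          (TT a j).card + 1) ≤ ∑ j ∈ J a, 2 * (P j).sizeOf (I a j) (TT a j) :=
        sum_le_sum fun j _ => size_real _ _ _
      rw [← mul_sum] at h2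
      linarith)
    (by
      have h2 : ∑ j, (∑ i, (((P j).ord i + (P j).ord i : ℕ) : ℝ) + (P j).nc + 1) ≤
          ∑ j, 2 * (P j).sizeOf univ univ := by
        refine sum_le_sum fun j _ => ?_
        have h3 := size_real (P j) univ univ
        rw [Finset.card_univ, Fintype.card_fin] at h3
        exact h3
      rw [← mul_sum] at h2
      linarith)
    (by
      rw [hA'c]
      exact hθA)
    (by
      rw [hA'c]
      exact hA0)
  rw [hkb, hq0] at key
  exact key

end Pool.Agent.H55.QP
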