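import Pool.Agent.H55.QP.Targets
import Pool.Agent.H55.QO.FINQ
import Pool.Agent.H91.QO.FINO

/-! # Quantum relaxations from pools, wide clauses: choice of the parameters (helper55, after
helper91) -/

set_option autoImplicit false

namespace Pool.Agent.H55.QP

open Finset Matrix
open Pool.Agent.H1.LP (Clause viol)
open Pool.Agent.H91.SV (kc kc_nonneg)
open Pool.Agent.H91.QO (NO S_PARMO NO_cube)
open Pool.Agent.H43.QO (Good2 T_GOO2)
open Pool.Agent.H55.QO (rp_le' three_le err_small')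

theorem CertifiedBy.mono {n M m : ℕ} {P : Fin M → QPool n} {phi : Fin m → Clause n}
    {de er S S' : ℝ} (h : CertifiedBy P phi de er S) (hS : S ≤ S') :
    CertifiedBy P phi de er S' := by
  obtain ⟨J, I, T, h1, h2, h3, h4⟩ := h
  exact ⟨J, I, T, h1, h2, h3, h4.trans hS⟩

theorem pf_FINP (hC : S_COREP) (hG : T_GOO2) (hP : S_PARMO) : StatementPW := by
  classical
  intro C ε hε
  obtain ⟨E, hE, hEε, hpar⟩ := hP (C + 1) (ε / 2) (by linarith)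
  obtain ⟨K, w, ρ, k, p, hp, hEK, hw, hρ, hk, hpK, hpK2, hgood⟩ := hG E hE
  obtain ⟨L, Kc, γ, e0, hL, he0, he1, hpe, hγ, n₀, hn⟩ := hpar K w ρ k p hEK hw hρ hk hpK hpK2
  obtain ⟨N1, hN1⟩ := exists_nat_ge (4 / ε)
  refine ⟨(K + 1) * (L + 1) * k, Kc, min γ (1 / 4), lt_min hγ (by norm_num), n₀ + N1 + 8,
    fun n hn0 => ?_⟩
  obtain ⟨u, hku, hwu, hNO, h4, hfin⟩ := hn n (by omega)
  have hnR : (0 : ℝ) ≤ n := Nat.cast_nonneg n
  have hn8 : (8 : ℝ) ≤ n := by exact_mod_cast (by omega : 8 ≤ n)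
  have hu1 : 1 ≤ u := hk.trans hku
  have hR : 1 ≤ ρ * u := Nat.one_le_iff_ne_zero.2 (by positivity)
  have hth0 : (0 : ℝ) ≤ ((4 : ℝ) ^ (w * u))⁻¹ := by positivity
  have hth1 : ((4 : ℝ) ^ (w * u))⁻¹ ≤ 1 := inv_le_one_of_one_le₀ (one_le_pow₀ (by norm_num))
  obtain ⟨Y, m, phi, hY, hm, hmain⟩ := hC E K k p (w * u) (ρ * u) L n (w * u - w * u / E)
    (((4 : ℝ) ^ (w * u))⁻¹) e0 hE hR hpK2 (hgood u hku) hth0 hth1 hwu he0 he1 hpe
  refine ⟨Y, m, phi, hY, ?_, ?_⟩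
  · intro a
    obtain ⟨h1, h2, h3, h5⟩ := hm a
    refine ⟨h1, h2.trans hNO, h3, fun x => le_trans ?_ (h5 x)⟩
    apply mul_le_mul_of_nonneg_right _ (by positivity)
    linarith
  · intro M P hPW
    obtain ⟨de, hde⟩ : ∃ de : ℝ, de = (2 : ℝ) ^ (-(min γ (1 / 4) * n)) := ⟨_, rfl⟩
    rw [← hde]
    have hde0 : 0 < de := by
      rw [hde]
      positivity
    have hdeγ : (2 : ℝ) ^ (-(γ * n)) ≤ de := by
      rw [hde]
      apply rp_le'
      have := mul_le_mul_of_nonneg_right (min_le_left γ (1 / 4)) hnR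
      linarith
    obtain ⟨A, hA⟩ : ∃ A, A = univ.filter (fun a => CertifiedBy P (phi a) de
      ((2 : ℝ) ^ (-(n : ℝ))) ((2 : ℝ) ^ ((1 - ε) * n))) := ⟨_, rfl⟩
    rw [← hA]
    rcases Nat.eq_zero_or_pos A.card with hA0 | hA0
    · rw [hA0]
      push_cast
      positivity
    have hYR : (0 : ℝ) < Y := by exact_mod_cast hY
    have hAR : (0 : ℝ) < A.card := by exact_mod_cast hA0
    have h3 : 2 ≤ ε / 2 * n := by
      have h5 : (N1 : ℝ) ≤ n := by exact_mod_cast (by omega : N1 ≤ n)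
      have h6 : 4 / ε ≤ n := hN1.trans h5
      rw [div_le_iff₀ hε] at h6
      linarith
    have two_le : ∀ {a b : ℝ}, a + 2 ≤ b → (2 : ℝ) ^ a ≤ (2 : ℝ) ^ b / 2 := by
      intro a b hab
      have h5 := three_le hab
      have h6 : (0 : ℝ) < (2 : ℝ) ^ b := by positivity
      linarith
    have hthde : ((4 : ℝ) ^ (w * u))⁻¹ ≤ de / 4 := by
      have h5 : ((4 : ℝ) ^ (w * u))⁻¹ ≤ (2 : ℝ) ^ (-(γ * n)) / 4 := by
        refine le_trans ?_ h4
        have hR1 : (1 : ℝ) ≤ ((ρ * u : ℕ) : ℝ) := by exact_mod_cast hR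
        exact le_mul_of_one_le_right hth0 hR1
      linarith
    have hθ0 : (0 : ℝ) < (A.card : ℝ) / (Y * (2 : ℝ) ^ ((C + 1) * n)) := by positivity
    have e1 : 2 * ((2 : ℝ) ^ ((C + 1) * n) / 2) = (2 : ℝ) ^ ((C + 1) * n) := by ring
    have e2 : 2 * ((2 : ℝ) ^ ((1 - ε / 2) * n) / 2) = (2 : ℝ) ^ ((1 - ε / 2) * n) := by ring
    have hθ : (A.card : ℝ) / (Y * (2 : ℝ) ^ ((C + 1) * n)) * Y *
        (2 * ((2 : ℝ) ^ ((C + 1) * n) / 2)) ≤ A.card := by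
      refine le_of_eq ?_
      field_simp
    have key := hmain M P A de ((2 : ℝ) ^ (-(n : ℝ))) ((2 : ℝ) ^ ((1 - ε / 2) * n) / 2)
      ((2 : ℝ) ^ ((C + 1) * n) / 2) ((A.card : ℝ) / (Y * (2 : ℝ) ^ ((C + 1) * n))) hde0
      (by
        rw [hde]
        exact err_small' K L n (w * u) p _ hL hwu hpK2 (min_le_right _ _) (by omega))
      hthde (by positivity) hθ0
      (fun a ha => by
        rw [hA] at ha
        refine (mem_filter.1 ha).2.mono (two_le ?_)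
        nlinarith)
      (hPW.trans (two_le (by nlinarith))) hθ hA0
    rw [e1, e2] at key
    have hfin' := hfin (A.card : ℝ) (Y : ℝ) hAR hYR (le_trans
      (pow_le_pow_left₀ (by positivity) hdeγ 2) (key.trans ?_))
    · refine hfin'.trans (mul_le_mul_of_nonneg_right hdeγ hYR.le)
    have hkc := kc_nonneg p (p ^ L) (w * u) (w * u - w * u / E) e0 ((2 : ℝ) ^ ((C + 1) * n))
      ((A.card : ℝ) / (Y * (2 : ℝ) ^ ((C + 1) * n))) he0 (by positivity) hθ0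
    have hcube := NO_cube (ρ * u) K L k hR hL (hE.trans hEK) hk
    obtain ⟨kb, hkb⟩ : ∃ kb, kb = kc p (p ^ L) (w * u) (w * u - w * u / E) e0
      ((2 : ℝ) ^ ((C + 1) * n)) ((A.card : ℝ) / (Y * (2 : ℝ) ^ ((C + 1) * n))) := ⟨_, rfl⟩
    rw [← hkb] at hkc ⊢
    have hS : (0 : ℝ) ≤ (2 : ℝ) ^ ((1 - ε / 2) * n) + 1 := by positivity
    calc 2 ^ 14 * ((p : ℝ) ^ (w * u)) ^ 2 * (((ρ * u : ℕ) : ℝ) * kb) *
          ((2 : ℝ) ^ ((1 - ε / 2) * n) + 1)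
        = (2 ^ 14 * ((ρ * u : ℕ) : ℝ)) * (((p : ℝ) ^ (w * u)) ^ 2 * kb *
          ((2 : ℝ) ^ ((1 - ε / 2) * n) + 1)) := by ring
      _ ≤ (36 * ((NO (ρ * u) K L k : ℝ) + 1) ^ 3) * (((p : ℝ) ^ (w * u)) ^ 2 * kb *
          ((2 : ℝ) ^ ((1 - ε / 2) * n) + 1)) := by gcongr
      _ = _ := by ring

end Pool.Agent.H55.QP
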