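import Pool.Agent.H55.QP.Targets
import Pool.Agent.H55.QO.PAD

/-! # Quantum relaxations from pools: small exponents from fixed encodings (helper55) -/

set_option autoImplicit false

namespace Pool.Agent.H55.QP

open Finset Matrix
open Pool.Agent.H1.LP (Clause viol)
open scoped ComplexOrder

section
variable {n : ℕ}

/-- the sectors of the encoding of a pool -/
abbrev Ix (nb nc : ℕ) : Type := Fin nb ⊕ ((Fin nc ⊕ Fin nc) ⊕ Unit)

/-- the dimensions of the sectors -/
def ordx (P : QPool n) : Ix P.nb P.nc → ℕ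
  | Sum.inl i => P.ord i
  | Sum.inr _ => 1

open Classical in
/-- one if the clause is violated -/
noncomputable def sv (C : Clause n) (x : Fin n → Bool) : ℝ := if C.Sat x then 0 else 1

/-- the normalisation -/
noncomputable def Zc (P : QPool n) : ℝ := (P.nb : ℝ) + 3 * (P.nc : ℝ) + 1

/-- the classical pieces -/
noncomputable def cv (P : QPool n) (x : Fin n → Bool) : Fin P.nc ⊕ Fin P.nc → ℝ
  | Sum.inl t => sv (P.cl t) x - P.en t x
  | Sum.inr t => sv (P.cl t) x

/-- the rest -/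
noncomputable def rem (P : QPool n) (x : Fin n → Bool) : ℝ :=
  1 - (∑ i, (P.st x i).trace.re + ∑ c, cv P x c) / Zc P

/-- the states -/
noncomputable def stx (P : QPool n) (x : Fin n → Bool) :
    (i : Ix P.nb P.nc) → Matrix (Fin (ordx P i)) (Fin (ordx P i)) ℂ
  | Sum.inl i => ((1 / Zc P : ℝ) : ℂ) • P.st x i
  | Sum.inr (Sum.inl c) => ((cv P x c / Zc P : ℝ) : ℂ) • (1 : Matrix (Fin 1) (Fin 1) ℂ)
  | Sum.inr (Sum.inr _) => ((rem P x : ℝ) : ℂ) • (1 : Matrix (Fin 1) (Fin 1) ℂ)

theorem Zc_pos (P : QPool n) : 0 < Zc P := by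
  unfold Zc
  positivity

theorem sv_nonneg (C : Clause n) (x : Fin n → Bool) : 0 ≤ sv C x := by
  unfold sv
  split_ifs <;> norm_num

theorem sv_le (C : Clause n) (x : Fin n → Bool) : sv C x ≤ 1 := by
  unfold sv
  split_ifs <;> norm_num

theorem cv_nonneg (P : QPool n) {x : Fin n → Bool} (hx : x ∈ P.cell) (c : Fin P.nc ⊕ Fin P.nc) :
    0 ≤ cv P x c := by
  rcases c with t | t
  · show 0 ≤ sv (P.cl t) x - P.en t x
    unfold sv
    have h1 := abs_le.1 (P.bdd x hx t)
    split_ifs with h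
    · have := P.sound x hx t h
      linarith
    · linarith
  · exact sv_nonneg _ _

theorem cv_sum (P : QPool n) {x : Fin n → Bool} (hx : x ∈ P.cell) :
    ∑ c, cv P x c ≤ 3 * (P.nc : ℝ) := by
  rw [Fintype.sum_sum_type]
  have h1 : ∑ t : Fin P.nc, cv P x (Sum.inl t) ≤ ∑ _t : Fin P.nc, (2 : ℝ) := by
    refine sum_le_sum fun t _ => ?_
    show sv (P.cl t) x - P.en t x ≤ 2
    have h1 := abs_le.1 (P.bdd x hx t)
    have h2 := sv_le (P.cl t) x
    linarith
  have h2 : ∑ t : Fin P.nc, cv P x (Sum.inr t) ≤ ∑ _t : Fin P.nc, (1 : ℝ) :=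
    sum_le_sum fun t _ => sv_le (P.cl t) x
  rw [sum_const, card_univ, Fintype.card_fin, nsmul_eq_mul] at h1 h2
  linarith

theorem rem_nonneg (P : QPool n) {x : Fin n → Bool} (hx : x ∈ P.cell) : 0 ≤ rem P x := by
  unfold rem
  have h1 : ∑ i, (P.st x i).trace.re ≤ ∑ _i : Fin P.nb, (1 : ℝ) :=
    sum_le_sum fun i _ => P.sub x hx i
  rw [sum_const, card_univ, Fintype.card_fin, nsmul_eq_mul, mul_one] at h1
  have h2 := cv_sum P hx
  rw [sub_nonneg, div_le_one (Zc_pos P)]
  unfold Zc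
  linarith

theorem smul_one_psd {d : ℕ} {r : ℝ} (hr : 0 ≤ r) :
    (((r : ℝ) : ℂ) • (1 : Matrix (Fin d) (Fin d) ℂ)).PosSemidef := by
  apply Matrix.PosSemidef.smul Matrix.PosSemidef.one
  exact_mod_cast hr

theorem stx_psd (P : QPool n) {x : Fin n → Bool} (hx : x ∈ P.cell) (i : Ix P.nb P.nc) :
    (stx P x i).PosSemidef := by
  rcases i with i | c | u
  · show (((1 / Zc P : ℝ) : ℂ) • P.st x i).PosSemidef
    apply Matrix.PosSemidef.smul (P.psd x hx i)
    have := (Zc_pos P).le
    exact_mod_cast (by positivity : (0 : ℝ) ≤ 1 / Zc P)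
  · exact smul_one_psd (div_nonneg (cv_nonneg P hx c) (Zc_pos P).le)
  · exact smul_one_psd (rem_nonneg P hx)

theorem psd_trace {d : ℕ} {A : Matrix (Fin d) (Fin d) ℂ} (hA : A.PosSemidef) :
    A.trace = ((A.trace.re : ℝ) : ℂ) := by
  have h := hA.trace_nonneg
  have h2 := (Complex.le_def.1 h).2
  apply Complex.ext
  · simp
  · simp only [Complex.ofReal_im]
    simpa using h2.symm

/-- observables -/
def Hx (P : QPool n) (a : (i : Fin P.nb) → Matrix (Fin (P.ord i)) (Fin (P.ord i)) ℂ)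
    (b : Fin P.nc ⊕ Fin P.nc → ℝ) (r : ℝ) :
    (i : Ix P.nb P.nc) → Matrix (Fin (ordx P i)) (Fin (ordx P i)) ℂ
  | Sum.inl i => a i
  | Sum.inr (Sum.inl c) => ((b c : ℝ) : ℂ) • (1 : Matrix (Fin 1) (Fin 1) ℂ)
  | Sum.inr (Sum.inr _) => ((r : ℝ) : ℂ) • (1 : Matrix (Fin 1) (Fin 1) ℂ)

/-- the trace of an observable on the states -/
theorem tr_sum (P : QPool n) (x : Fin n → Bool) (a : (i : Fin P.nb) →
    Matrix (Fin (P.ord i)) (Fin (P.ord i)) ℂ) (b : Fin P.nc ⊕ Fin P.nc → ℝ) (r : ℝ) :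
    ∑ i, (Hx P a b r i * stx P x i).trace = ((1 / Zc P : ℝ) : ℂ) * ∑ i, (a i * P.st x i).trace +
      ((∑ c, b c * (cv P x c / Zc P) + r * rem P x : ℝ) : ℂ) := by
  rw [Fintype.sum_sum_type, Fintype.sum_sum_type]
  have e1 : ∀ i, (Hx P a b r (Sum.inl i) * stx P x (Sum.inl i)).trace =
      ((1 / Zc P : ℝ) : ℂ) * (a i * P.st x i).trace := by
    intro i
    show (a i * (((1 / Zc P : ℝ) : ℂ) • P.st x i)).trace = _
    rw [Matrix.mul_smul, trace_smul, smul_eq_mul]
  have e2 : ∀ c, (Hx P a b r (Sum.inr (Sum.inl c)) * stx P x (Sum.inr (Sum.inl c))).trace =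
      ((b c * (cv P x c / Zc P) : ℝ) : ℂ) := by
    intro c
    show ((((b c : ℝ) : ℂ) • (1 : Matrix (Fin 1) (Fin 1) ℂ)) *
      (((cv P x c / Zc P : ℝ) : ℂ) • (1 : Matrix (Fin 1) (Fin 1) ℂ))).trace = _
    rw [Matrix.smul_mul, Matrix.mul_smul, Matrix.mul_one, trace_smul, trace_smul]
    simp
  have e3 : ∀ u, (Hx P a b r (Sum.inr (Sum.inr u)) * stx P x (Sum.inr (Sum.inr u))).trace =
      ((r * rem P x : ℝ) : ℂ) := by
    intro u
    show ((((r : ℝ) : ℂ) • (1 : Matrix (Fin 1) (Fin 1) ℂ)) *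
      (((rem P x : ℝ) : ℂ) • (1 : Matrix (Fin 1) (Fin 1) ℂ))).trace = _
    rw [Matrix.smul_mul, Matrix.mul_smul, Matrix.mul_one, trace_smul, trace_smul]
    simp
  rw [sum_congr rfl fun i _ => e1 i, sum_congr rfl fun c _ => e2 c, sum_congr rfl fun u _ => e3 u,
    ← mul_sum]
  simp

open Classical in
/-- the encoding of a pool with a nonempty cell -/
noncomputable def toEnc (P : QPool n) (h : P.cell.Nonempty) : QO.Encoding n where
  cell := P.cell
  nb := Fintype.card (Ix P.nb P.nc)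
  ord := fun j => ordx P ((Fintype.equivFin _).symm j)
  st := fun x j => stx P x ((Fintype.equivFin _).symm j)
  en := fun C x => if C ∈ univ.image P.cl then sv C x else 0
  ne := h
  psd := fun x hx i => stx_psd P hx _
  tr := by
    intro x hx
    rw [Equiv.sum_comp (Fintype.equivFin (Ix P.nb P.nc)).symm (fun i => (stx P x i).trace)]
    have h0 : ∀ i, (stx P x i).trace = (Hx P (fun _ => 1) (fun _ => 1) 1 i * stx P x i).trace := by
      rintro (i | c | u)
      · show _ = ((1 : Matrix (Fin (P.ord i)) (Fin (P.ord i)) ℂ) *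
          (((1 / Zc P : ℝ) : ℂ) • P.st x i)).trace
        rw [Matrix.one_mul]
        rfl
      · show _ = (((((1 : ℝ) : ℝ) : ℂ) • (1 : Matrix (Fin 1) (Fin 1) ℂ)) *
          (((cv P x c / Zc P : ℝ) : ℂ) • (1 : Matrix (Fin 1) (Fin 1) ℂ))).trace
        rw [Complex.ofReal_one, one_smul, Matrix.one_mul]
        rfl
      · show _ = (((((1 : ℝ) : ℝ) : ℂ) • (1 : Matrix (Fin 1) (Fin 1) ℂ)) *
          (((rem P x : ℝ) : ℂ) • (1 : Matrix (Fin 1) (Fin 1) ℂ))).trace
        rw [Complex.ofReal_one, one_smul, Matrix.one_mul]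
        rfl
    rw [sum_congr rfl fun i _ => h0 i, tr_sum]
    simp only [one_mul]
    have h2 : ∑ i, (P.st x i).trace = ((∑ i, (P.st x i).trace.re : ℝ) : ℂ) := by
      rw [Complex.ofReal_sum]
      exact sum_congr rfl fun i _ => psd_trace (P.psd x hx i)
    rw [h2]
    have h3 : ∑ c, cv P x c / Zc P = (∑ c, cv P x c) / Zc P := by rw [Finset.sum_div]
    rw [h3]
    unfold rem
    rw [← Complex.ofReal_mul, ← Complex.ofReal_add]
    have h4 := (Zc_pos P).ne'
    norm_cast
    field_simp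
    ring
  bdd := by
    intro x _ C
    split_ifs
    · rw [abs_of_nonneg (sv_nonneg _ _)]
      exact sv_le _ _
    · simp
  sound := by
    intro x _ C hC
    split_ifs
    · unfold sv
      rw [if_pos hC]
    · exact le_rfl

theorem toEnc_size (P : QPool n) (h : P.cell.Nonempty) :
    (toEnc P h).size ≤ 2 * P.sizeOf univ univ := by
  show ∑ j, ((ordx P ((Fintype.equivFin (Ix P.nb P.nc)).symm j) : ℕ) : ℝ) ≤ _
  rw [Equiv.sum_comp (Fintype.equivFin (Ix P.nb P.nc)).symm (fun i => ((ordx P i : ℕ) : ℝ)),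
    Fintype.sum_sum_type, Fintype.sum_sum_type, Fintype.sum_sum_type]
  unfold QPool.sizeOf ordx
  have h0 : (0 : ℝ) ≤ ∑ i, (P.ord i : ℝ) := sum_nonneg fun _ _ => Nat.cast_nonneg _
  simp
  linarith

/-- sums over the clauses -/
theorem clause_sum {N m : ℕ} {κ : Type} [DecidableEq κ] (cl : Fin N → κ) (phi : Fin m → κ)
    (w : Fin N → ℝ) (f : κ → ℝ) :
    ∑ t, w t * f (cl t) + ∑ t, (((univ.filter (fun j => phi j = cl t)).card : ℝ) -
      ∑ t' ∈ univ.filter (fun t' => cl t' = cl t), w t') /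
        ((univ.filter (fun t' => cl t' = cl t)).card : ℝ) * f (cl t) =
      ∑ j, if phi j ∈ univ.image cl then f (phi j) else 0 := by
  have h1 : ∑ t, (((univ.filter (fun j => phi j = cl t)).card : ℝ) -
      ∑ t' ∈ univ.filter (fun t' => cl t' = cl t), w t') /
        ((univ.filter (fun t' => cl t' = cl t)).card : ℝ) * f (cl t) =
      ∑ C ∈ univ.image cl, (((univ.filter (fun j => phi j = C)).card : ℝ) -
        ∑ t' ∈ univ.filter (fun t' => cl t' = C), w t') * f C := by
    rw [Finset.sum_comp (fun C => (((univ.filter (fun j => phi j = C)).card : ℝ) -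
      ∑ t' ∈ univ.filter (fun t' => cl t' = C), w t') /
        ((univ.filter (fun t' => cl t' = C)).card : ℝ) * f C) cl]
    refine sum_congr rfl fun C hC => ?_
    obtain ⟨t, -, ht⟩ := mem_image.1 hC
    have h2 : ((univ.filter (fun t' => cl t' = C)).card : ℝ) ≠ 0 := by
      have : 0 < (univ.filter (fun t' => cl t' = C)).card :=
        Finset.card_pos.2 ⟨t, mem_filter.2 ⟨mem_univ _, ht⟩⟩
      positivity
    rw [nsmul_eq_mul]
    field_simp
  have h2 : ∑ C ∈ univ.image cl, ((univ.filter (fun j => phi j = C)).card : ℝ) * f C =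
      ∑ j, if phi j ∈ univ.image cl then f (phi j) else 0 := by
    have h3 : ∀ C, ((univ.filter (fun j => phi j = C)).card : ℝ) * f C =
        ∑ j, if phi j = C then f C else 0 := by
      intro C
      rw [← Finset.sum_filter, Finset.sum_const, nsmul_eq_mul]
    rw [sum_congr rfl fun C _ => h3 C, sum_comm]
    refine sum_congr rfl fun j _ => ?_
    rw [Finset.sum_ite_eq]
  have h3 : ∑ C ∈ univ.image cl, (∑ t' ∈ univ.filter (fun t' => cl t' = C), w t') * f C =
      ∑ t, w t * f (cl t) := by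
    have h4 : ∀ C, (∑ t' ∈ univ.filter (fun t' => cl t' = C), w t') * f C =
        ∑ t', if cl t' = C then w t' * f C else 0 := by
      intro C
      rw [Finset.sum_mul, ← Finset.sum_filter]
    rw [sum_congr rfl fun C _ => h4 C, sum_comm]
    refine sum_congr rfl fun t _ => ?_
    rw [Finset.sum_ite_eq, if_pos (mem_image_of_mem _ (mem_univ _))]
  rw [h1, ← h2, ← h3, ← sum_add_distrib]
  refine sum_congr rfl fun C _ => ?_
  ring

theorem toEnc_certifies {m : ℕ} (P : QPool n) (h : P.cell.Nonempty) (phi : Fin m → Clause n)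
    (I : Finset (Fin P.nb)) (T : Finset (Fin P.nc)) (de er : ℝ)
    (hT : ∀ t ∈ T, ∃ i, phi i = P.cl t) (hc : P.Certifies I T de er) :
    (toEnc P h).Certifies phi de er := by
  classical
  obtain ⟨htr, w, H, hw0, hw1, h1, h2⟩ := hc
  obtain ⟨w', hw'⟩ : ∃ w' : Fin P.nc → ℝ, w' = fun t => if t ∈ T then w t else 0 := ⟨_, rfl⟩
  have hw'0 : ∀ t, 0 ≤ w' t := by
    intro t
    rw [hw']
    dsimp only
    split_ifs with ht
    · exact hw0 t ht
    · exact le_rfl
  have hw's : ∀ f : Fin P.nc → ℝ, ∑ t, w' t * f t = ∑ t ∈ T, w t * f t := by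
    intro f
    rw [← Finset.sum_filter_add_sum_filter_not univ (fun t => t ∈ T)]
    have e1 : ∑ t ∈ univ.filter (fun t => ¬ t ∈ T), w' t * f t = 0 := by
      refine Finset.sum_eq_zero fun t ht => ?_
      rw [hw']
      dsimp only
      rw [if_neg (mem_filter.1 ht).2, zero_mul]
    have e2 : univ.filter (fun t => t ∈ T) = T := by
      ext t
      simp
    rw [e1, add_zero, e2]
    refine Finset.sum_congr rfl fun t ht => ?_
    rw [hw']
    dsimp only
    rw [if_pos ht]
  have hw'1 : ∑ t, w' t ≤ 1 := by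
    have e1 := hw's (fun _ => 1)
    simp only [mul_one] at e1
    rw [e1]
    exact hw1
  obtain ⟨v, hv⟩ : ∃ v : Fin P.nc → ℝ, v = fun t =>
      (((univ.filter (fun j => phi j = P.cl t)).card : ℝ) -
      ∑ t' ∈ univ.filter (fun t' => P.cl t' = P.cl t), w' t') /
        ((univ.filter (fun t' => P.cl t' = P.cl t)).card : ℝ) := ⟨_, rfl⟩
  have hv0 : ∀ t, 0 ≤ v t := by
    intro t
    rw [hv]
    refine div_nonneg ?_ (Nat.cast_nonneg _)
    rw [sub_nonneg]
    by_cases hj : ∃ j, phi j = P.cl t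
    · obtain ⟨j, hj⟩ := hj
      have h3 : 1 ≤ (univ.filter (fun j => phi j = P.cl t)).card :=
        Finset.card_pos.2 ⟨j, mem_filter.2 ⟨mem_univ _, hj⟩⟩
      have h4 : (1 : ℝ) ≤ ((univ.filter (fun j => phi j = P.cl t)).card : ℝ) := by
        exact_mod_cast h3
      have h5 : ∑ t' ∈ univ.filter (fun t' => P.cl t' = P.cl t), w' t' ≤ ∑ t', w' t' :=
        Finset.sum_le_sum_of_subset_of_nonneg (Finset.filter_subset _ _) (fun t' _ _ => hw'0 t')
      linarith
    · have h5 : ∑ t' ∈ univ.filter (fun t' => P.cl t' = P.cl t), w' t' = 0 := by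
        refine Finset.sum_eq_zero fun t' ht' => ?_
        rw [hw']
        dsimp only
        rw [if_neg]
        intro ht
        obtain ⟨j, hj'⟩ := hT t' ht
        exact hj ⟨j, hj'.trans (mem_filter.1 ht').2⟩
      rw [h5]
      exact Nat.cast_nonneg _
  obtain ⟨a, ha⟩ : ∃ a : (i : Fin P.nb) → Matrix (Fin (P.ord i)) (Fin (P.ord i)) ℂ, a = fun i =>
      (de : ℂ) • (1 : Matrix (Fin (P.ord i)) (Fin (P.ord i)) ℂ) +
        (if i ∈ I then (Zc P : ℂ) • (H i - (de : ℂ) • (1 : Matrix _ _ ℂ)) else 0) := ⟨_, rfl⟩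
  obtain ⟨b, hb⟩ : ∃ b : Fin P.nc ⊕ Fin P.nc → ℝ,
      b = Sum.elim (fun t => de + Zc P * w' t) (fun t => de + Zc P * v t) := ⟨_, rfl⟩
  have hZ := Zc_pos P
  refine ⟨fun j => Hx P a b de ((Fintype.equivFin _).symm j), ?_, ?_⟩
  · intro x hx
    have hx' : x ∈ P.cell := hx
    have hmain : ∑ j, (Hx P a b de ((Fintype.equivFin (Ix P.nb P.nc)).symm j) *
        stx P x ((Fintype.equivFin (Ix P.nb P.nc)).symm j)).trace -
        ((∑ j, (if phi j ∈ univ.image P.cl then sv (phi j) x else 0) : ℝ) : ℂ) =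
        ∑ i ∈ I, (H i * P.st x i).trace - ((∑ t ∈ T, w t * P.en t x : ℝ) : ℂ) := by
      rw [Equiv.sum_comp (Fintype.equivFin (Ix P.nb P.nc)).symm
        (fun i => (Hx P a b de i * stx P x i).trace), tr_sum]
      have e1 : ∀ i, (a i * P.st x i).trace = (de : ℂ) * (((P.st x i).trace.re : ℝ) : ℂ) +
          (if i ∈ I then (Zc P : ℂ) * ((H i * P.st x i).trace - (de : ℂ) * (P.st x i).trace)
          else 0) := by
        intro i
        rw [← psd_trace (P.psd x hx' i), ha]
        dsimp only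
        rw [Matrix.add_mul, trace_add, Matrix.smul_mul, Matrix.one_mul, trace_smul, smul_eq_mul]
        congr 1
        split_ifs
        · rw [Matrix.smul_mul, trace_smul, Matrix.sub_mul, trace_sub, Matrix.smul_mul,
            Matrix.one_mul, trace_smul]
          rfl
        · rw [Matrix.zero_mul, trace_zero]
      have e2 : ∑ i, (a i * P.st x i).trace = (de : ℂ) * ((∑ i, (P.st x i).trace.re : ℝ) : ℂ) +
          (Zc P : ℂ) * (∑ i ∈ I, (H i * P.st x i).trace - (de : ℂ)) := by
        rw [sum_congr rfl fun i _ => e1 i, sum_add_distrib, ← mul_sum, Complex.ofReal_sum,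
          ← Finset.sum_filter]
        have e3 : univ.filter (fun i => i ∈ I) = I := by
          ext i
          simp
        rw [e3, ← mul_sum, sum_sub_distrib, ← mul_sum, htr x hx', mul_one]
      have e4 : ∑ c, b c * (cv P x c / Zc P) = de * ((∑ c, cv P x c) / Zc P) +
          ((∑ t, w' t * sv (P.cl t) x + ∑ t, v t * sv (P.cl t) x) - ∑ t ∈ T, w t * P.en t x) := by
        rw [Fintype.sum_sum_type, Fintype.sum_sum_type (fun c => cv P x c), hb]
        have e5 : ∀ t, (Sum.elim (fun t => de + Zc P * w' t) (fun t => de + Zc P * v t)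
            (Sum.inl t) : ℝ) * (cv P x (Sum.inl t) / Zc P) =
            de / Zc P * cv P x (Sum.inl t) + (w' t * sv (P.cl t) x - w' t * P.en t x) := by
          intro t
          show (de + Zc P * w' t) * ((sv (P.cl t) x - P.en t x) / Zc P) =
            de / Zc P * (sv (P.cl t) x - P.en t x) + (w' t * sv (P.cl t) x - w' t * P.en t x)
          field_simp
        have e6 : ∀ t, (Sum.elim (fun t => de + Zc P * w' t) (fun t => de + Zc P * v t)
            (Sum.inr t) : ℝ) * (cv P x (Sum.inr t) / Zc P) =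
            de / Zc P * cv P x (Sum.inr t) + v t * sv (P.cl t) x := by
          intro t
          show (de + Zc P * v t) * (sv (P.cl t) x / Zc P) =
            de / Zc P * sv (P.cl t) x + v t * sv (P.cl t) x
          field_simp
        rw [sum_congr rfl fun t _ => e5 t, sum_congr rfl fun t _ => e6 t, sum_add_distrib,
          sum_add_distrib, sum_sub_distrib, ← mul_sum, ← mul_sum, hw's (fun t => P.en t x)]
        ring
      have e7 := clause_sum P.cl phi w' (fun C => sv C x)
      have e8 : ∑ t, v t * sv (P.cl t) x = ∑ t, (((univ.filter (fun j => phi j = P.cl t)).card : ℝ) -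
          ∑ t' ∈ univ.filter (fun t' => P.cl t' = P.cl t), w' t') /
          ((univ.filter (fun t' => P.cl t' = P.cl t)).card : ℝ) * sv (P.cl t) x := by
        rw [hv]
      rw [← e8] at e7
      rw [e2, e4, e7]
      unfold rem
      have hZC : ((Zc P : ℝ) : ℂ) ≠ 0 := by exact_mod_cast hZ.ne'
      push_cast
      field_simp
      ring
    show ‖∑ j, (Hx P a b de ((Fintype.equivFin (Ix P.nb P.nc)).symm j) *
        stx P x ((Fintype.equivFin (Ix P.nb P.nc)).symm j)).trace -
        ((∑ j, (if phi j ∈ univ.image P.cl then sv (phi j) x else 0) : ℝ) : ℂ)‖ ≤ er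
    rw [hmain]
    exact h1 x hx'
  · have key : ∀ i : Ix P.nb P.nc, (Hx P a b de i -
        (de : ℂ) • (1 : Matrix (Fin (ordx P i)) (Fin (ordx P i)) ℂ)).PosSemidef := by
      have hone : ∀ r : ℝ, de ≤ r → ((((r : ℝ) : ℂ) • (1 : Matrix (Fin 1) (Fin 1) ℂ)) -
          (de : ℂ) • (1 : Matrix (Fin 1) (Fin 1) ℂ)).PosSemidef := by
        intro r hr
        have h3 : (((r : ℝ) : ℂ) • (1 : Matrix (Fin 1) (Fin 1) ℂ)) -
            (de : ℂ) • (1 : Matrix (Fin 1) (Fin 1) ℂ) =
            (((r - de : ℝ) : ℝ) : ℂ) • (1 : Matrix (Fin 1) (Fin 1) ℂ) := by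
          rw [← sub_smul]
          push_cast
          rfl
        rw [h3]
        exact smul_one_psd (by linarith)
      rintro (i | c | u)
      · show (a i - (de : ℂ) • (1 : Matrix (Fin (P.ord i)) (Fin (P.ord i)) ℂ)).PosSemidef
        rw [ha]
        dsimp only
        rw [add_sub_cancel_left]
        split_ifs with hi
        · apply Matrix.PosSemidef.smul (h2 i hi)
          exact_mod_cast hZ.le
        · exact Matrix.PosSemidef.zero
      · refine hone (b c) ?_
        rw [hb]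
        rcases c with t | t
        · show de ≤ de + Zc P * w' t
          have := mul_nonneg hZ.le (hw'0 t)
          linarith
        · show de ≤ de + Zc P * v t
          have := mul_nonneg hZ.le (hv0 t)
          linarith
      · exact hone de le_rfl
    intro j
    exact key _

end

open Classical in
/-- the encoding of a pool -/
noncomputable def enc {n : ℕ} (P : QPool n) : QO.Encoding n :=
  if h : P.cell.Nonempty then toEnc P h else QO.triv n

theorem enc_pos {n : ℕ} (P : QPool n) (h : P.cell.Nonempty) : enc P = toEnc P h := by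
  unfold enc
  rw [dif_pos h]

theorem enc_size {n : ℕ} (P : QPool n) : (enc P).size ≤ 2 * P.sizeOf univ univ := by
  unfold enc
  split_ifs with h
  · exact toEnc_size P h
  · rw [QO.triv_size]
    unfold QPool.sizeOf
    have h3 : (0 : ℝ) ≤ ∑ i, (P.ord i : ℝ) := Finset.sum_nonneg fun i _ => Nat.cast_nonneg _
    have h4 : (0 : ℝ) ≤ ((univ : Finset (Fin P.nc)).card : ℝ) := Nat.cast_nonneg _
    linarith

theorem enc_certifiedBy {n M m : ℕ} (P : Fin M → QPool n) (phi : Fin m → Clause n)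
    (de er S S' : ℝ) (hS : ∑ j, (enc (P j)).size ≤ S') (h : CertifiedBy P phi de er S) :
    QO.CertifiedBy (fun j => enc (P j)) phi de er S' := by
  classical
  obtain ⟨J, I, T, h1, h2, h3, -⟩ := h
  refine ⟨J.filter (fun j => (P j).cell.Nonempty), ?_, ?_, ?_, ?_⟩
  · intro j hj j' hj' hne
    rw [mem_filter] at hj hj'
    have := h1 j hj.1 j' hj'.1 hne
    simp only [enc_pos _ hj.2, enc_pos _ hj'.2]
    exact this
  · intro x
    obtain ⟨j, hj, hx⟩ := h2 x
    refine ⟨j, mem_filter.2 ⟨hj, ⟨x, hx⟩⟩, ?_⟩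
    simp only [enc_pos _ ⟨x, hx⟩]
    exact hx
  · intro j hj
    rw [mem_filter] at hj
    simp only [enc_pos _ hj.2]
    exact toEnc_certifies (P j) hj.2 phi (I j) (T j) de er (h3 j hj.1).1 (h3 j hj.1).2
  · refine le_trans ?_ hS
    exact Finset.sum_le_sum_of_subset_of_nonneg (Finset.subset_univ _)
      (fun j _ _ => QO.size_nonneg _)

theorem pf_MONO : S_MONO := by
  classical
  intro k ε c hc hH
  obtain ⟨K, γ, hγ, n₀, hn₀⟩ := hH
  obtain ⟨N1, hN1⟩ := exists_nat_ge (2 / c)
  refine ⟨c / 2, by positivity, K, γ, hγ, n₀ + N1, fun n hn => ?_⟩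
  obtain ⟨Y, m, phi, hY, hphi, hmain⟩ := hn₀ n (by omega)
  refine ⟨Y, m, phi, hY, hphi, fun M P hP => ?_⟩
  have h1 : (1 : ℝ) ≤ c / 2 * n := by
    have h2 : (N1 : ℝ) ≤ n := by exact_mod_cast (by omega : N1 ≤ n)
    have h3 : 2 / c ≤ n := hN1.trans h2
    rw [div_le_iff₀ hc] at h3
    linarith
  have hs : ∑ j, (enc (P j)).size ≤ (2 : ℝ) ^ (c * n) := by
    have h2 : ∑ j, (enc (P j)).size ≤ ∑ j, 2 * (P j).sizeOf univ univ :=
      sum_le_sum fun j _ => enc_size _
    rw [← mul_sum] at h2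
    have h3 : 2 * (2 : ℝ) ^ (c / 2 * n) ≤ (2 : ℝ) ^ (c * n) := by
      have h4 : (2 : ℝ) * (2 : ℝ) ^ (c / 2 * n) = (2 : ℝ) ^ (1 + c / 2 * n) := by
        rw [Real.rpow_add (by norm_num), Real.rpow_one]
      rw [h4]
      exact Real.rpow_le_rpow_of_exponent_le (by norm_num) (by linarith)
    linarith
  refine le_trans (Nat.cast_le.2 (Finset.card_le_card fun a ha => ?_))
    (hmain M (fun j => enc (P j)) hs)
  rw [mem_filter] at ha ⊢
  exact ⟨ha.1, enc_certifiedBy P (phi a) _ _ _ _ hs ha.2⟩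

end Pool.Agent.H55.QP
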