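import Pool.Agent.H91.QO.Final
import Pool.Agent.H55.QO.Asm
import Pool.Agent.H55.QP.COREP
import Pool.Agent.H55.QP.FINP
import Pool.Agent.H55.QP.MONO
import Pool.Agent.H55.QP.PAD
import Pool.Agent.H55.QP.LIM

/-! # Quantum relaxations of k-SAT, memories and energies chosen after the formula: the theorem
(MP_0f8dca_lc, helper55) -/

set_option autoImplicit false

namespace Pool.Agent.H55.QP

/-- the core inequality for wide clauses -/
theorem corep : S_COREP :=
  pf_COREP H49.QO.pf_ABSO2 H32.QD.pf_FRQ H58.KX.pf_NPR H88.LP.enc QO.celb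
    H55.AV.pf_BALH H77.AV.pf_MAS

/-- the large width case -/
theorem statementPW : StatementPW := pf_FINP corep Pool.Agent.H91.QO.goo2 H7.QO.pf_PARMO

/-- width 3 -/
theorem fin3 : S_FIN3 := fun ε hε => by
  obtain ⟨c, hc, h⟩ := QO.fin3 ε hε
  exact pf_MONO 3 ε c hc h

/-- Quantum relaxations of k-SAT, memories and energies chosen after the formula -/
theorem statementP : StatementP := pf_LIM pf_PAD statementPW fin3

end Pool.Agent.H55.QP
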